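import Pool.Agent.H419.LT.Core

/-!
# Malle's conjecture for `C₂ ≀ H` with local conditions at finitely many primes

`H` is a finite group with a subgroup `U` which contains no nontrivial normal subgroup of `H` and
with `8 u (u + 1) ≤ |H|`, `u` the index of `U`. The group `H` acts on itself by multiplication, and
`G = C₂ ≀ H` acts on `H × {0, 1}`. Let `K` be a number field, `𝔪` a nonzero ideal of `𝓞_K` and `R`
an `𝓞_K`-algebra. The number of `G`-extensions `L` of `K` (up to isomorphism) with discriminant of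
norm at most `B` and `𝓞_L / 𝔪 𝓞_L ≅ R` is asymptotic to `c B`, and `c > 0` as soon as one
`G`-extension has this property, indeed as soon as one quadratic extension of one Galois extension of
`K` with group `H` has it.
-/

set_option autoImplicit false

open Filter NumberField

namespace Pool.Agent.Results.MP_a3214d_nt.LocalConditions

/-- `G ≤ S_d` is, up to a bijection `f` of `{1, ..., d}` with `H × {0, 1}`, the wreath product
`C₂ ≀ H`: it consists of all permutations `π` for which there is `h ∈ H` such that `π` maps the block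
`{x} × {0, 1}` to the block `{h x} × {0, 1}`, for all `x ∈ H`. -/
def IsC2Wreath (H : Type) [Group H] {d : ℕ} (G : Subgroup (Equiv.Perm (Fin d))) : Prop :=
  ∃ f : Fin d ≃ H × Bool, ∀ π : Equiv.Perm (Fin d), π ∈ G ↔ ∃ h : H, ∀ i, (f (π i)).1 = h * (f i).1

/-- `H` has a faithful transitive action on `u` points (the cosets of `U`), `8 u (u + 1) ≤ |H|`. -/
def HasSmallAction (H : Type) [Group H] : Prop :=
  ∃ U : Subgroup H, U.normalCore = ⊥ ∧ 8 * U.index * (U.index + 1) ≤ Nat.card H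

/-- `M / K` is a finite Galois extension with group isomorphic to `H`. -/
def IsExt (K : Type) [Field K] (H : Type) [Group H]
    (M : IntermediateField K (AlgebraicClosure K)) : Prop :=
  FiniteDimensional K M ∧ IsGalois K M ∧ Nonempty ((M ≃ₐ[K] M) ≃* H)

/-- The fields `L` between `K` and its algebraic closure, of degree `d` over `K`, whose Galois group,
acting on the embeddings, is `G` (up to numbering), and whose relative discriminant has norm at most
`B` (that is, `|d_L| ≤ B |d_K| ^ d`). -/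
def Ext (K : Type) [Field K] [NumberField K] (d : ℕ) (G : Subgroup (Equiv.Perm (Fin d)))
    (B : ℝ) : Set (IntermediateField K (AlgebraicClosure K)) :=
  {L | Module.finrank K L = d ∧
    (∃ e : (L →ₐ[K] AlgebraicClosure K) ≃ Fin d, ∀ π : Equiv.Perm (Fin d),
      π ∈ G ↔ ∃ σ : AlgebraicClosure K ≃ₐ[K] AlgebraicClosure K,
        ∀ φ : L →ₐ[K] AlgebraicClosure K, e (σ.toAlgHom.comp φ) = π (e φ)) ∧
    ∃ h : NumberField L,
      ((|@NumberField.discr L _ h| : ℤ) : ℝ) ≤ B * ((|NumberField.discr K| : ℤ) : ℝ) ^ d}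

/-- The `𝓞_K`-algebra `𝓞_L / 𝔪 𝓞_L`. -/
abbrev Loc (K : Type) [Field K] (L : Type) [Field L] [Algebra K L] (𝔪 : Ideal (𝓞 K)) : Type :=
  𝓞 L ⧸ 𝔪.map (algebraMap (𝓞 K) (𝓞 L))

/-- `𝓞_L / 𝔪 𝓞_L ≅ R` as algebras over `𝓞_K`. -/
def HasLoc (K : Type) [Field K] (L : Type) [Field L] [Algebra K L] (𝔪 : Ideal (𝓞 K))
    (R : Type) [CommRing R] [Algebra (𝓞 K) R] : Prop :=
  Nonempty (Loc K L 𝔪 ≃ₐ[𝓞 K] R)

/-- `N(K, G; B)`: the number of the fields in `Ext K d G B` up to `K`-isomorphism. -/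
noncomputable def N (K : Type) [Field K] [NumberField K] (d : ℕ)
    (G : Subgroup (Equiv.Perm (Fin d))) (B : ℝ) : ℕ :=
  Nat.card (Quot fun L L' : Ext K d G B => Nonempty (L.1 ≃ₐ[K] L'.1))

/-- `N(K, G; B; R)`: the number of those with `𝓞_L / 𝔪 𝓞_L ≅ R`. -/
noncomputable def NLoc (K : Type) [Field K] [NumberField K] (d : ℕ)
    (G : Subgroup (Equiv.Perm (Fin d))) (𝔪 : Ideal (𝓞 K)) (R : Type) [CommRing R]
    [Algebra (𝓞 K) R] (B : ℝ) : ℕ :=
  Nat.card (Quot fun L L' : {L : IntermediateField K (AlgebraicClosure K) |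
    L ∈ Ext K d G B ∧ HasLoc K L 𝔪 R} => Nonempty (L.1 ≃ₐ[K] L'.1))

/-- **Malle's conjecture for `C₂ ≀ H` with local conditions.** Let `G = C₂ ≀ H`, `K` a number field,
`𝔪` a nonzero ideal of `𝓞_K` and `R` an `𝓞_K`-algebra. There is `c ≥ 0` such that
1. `N(K, G; B; R) ∼ c B`, that is, `N(K, G; B; R) / B → c`;
2. `c > 0` if and only if `𝓞_L / 𝔪 𝓞_L ≅ R` for at least one `G`-extension `L` of `K`;
3. `c > 0` if and only if there is a Galois extension `M` of `K` with group `H` such that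
   `𝓞_L / 𝔪 𝓞_L ≅ R` for at least one quadratic extension `L` of `M` (with any Galois group over
   `K`), or `(𝓞_M / 𝔪 𝓞_M)² ≅ R`;
4. if `H` is a Galois group over `K`, the proportion `N(K, G; B; R) / N(K, G; B)` converges, and its
   limit is positive if and only if `c > 0`. -/
theorem result (K : Type) [Field K] [NumberField K] (H : Type) [Group H] [Finite H]
    (hH : HasSmallAction H) {d : ℕ} {G : Subgroup (Equiv.Perm (Fin d))} (hG : IsC2Wreath H G)
    (𝔪 : Ideal (𝓞 K)) (h𝔪 : 𝔪 ≠ ⊥) (R : Type) [CommRing R] [Algebra (𝓞 K) R] :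
    ∃ c : ℝ, 0 ≤ c ∧
      Tendsto (fun B : ℝ => (NLoc K d G 𝔪 R B : ℝ) / B) atTop (nhds c) ∧
      (0 < c ↔ ∃ B : ℝ, ∃ L ∈ Ext K d G B, HasLoc K L 𝔪 R) ∧
      (0 < c ↔ ∃ M : IntermediateField K (AlgebraicClosure K), IsExt K H M ∧
        ((∃ L : IntermediateField K (AlgebraicClosure K), M ≤ L ∧
          Module.finrank K L = 2 * Module.finrank K M ∧ HasLoc K L 𝔪 R) ∨
          Nonempty ((Loc K M 𝔪 × Loc K M 𝔪) ≃ₐ[𝓞 K] R))) ∧
      ((∃ M : IntermediateField K (AlgebraicClosure K), IsExt K H M) →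
        ∃ δ : ℝ, Tendsto (fun B : ℝ => (NLoc K d G 𝔪 R B : ℝ) / N K d G B) atTop (nhds δ) ∧
          (0 < δ ↔ 0 < c)) := by
  obtain ⟨U, hU, hc⟩ := hH
  have h2 : 2 ≤ Nat.card H := by
    have h1 : U.index ≠ 0 := Subgroup.index_ne_zero_of_finite
    have h3 : 1 ≤ U.index := Nat.one_le_iff_ne_zero.2 h1
    nlinarith
  obtain ⟨c, hc0, hlim, h3, h4⟩ := Pool.Agent.H419.LT.core K H U hU h2 hc G hG 𝔪 h𝔪 R
  refine ⟨c, hc0, hlim, h3, ?_, ?_⟩
  · rw [h4]
    constructor
    · rintro ⟨M, hM, h⟩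
      exact ⟨M, hM, h⟩
    · rintro ⟨M, hM, h⟩
      exact ⟨M, hM, h⟩
  · rintro ⟨M, hM⟩
    obtain ⟨c', hc', hlim'⟩ := Pool.Agent.TH444.ML.asymp_iso Pool.Agent.TH444.ML.rest K H h2 U hU
      hc ⟨M, hM⟩ G hG
    refine ⟨c / c', ?_, ?_⟩
    · refine (hlim.div hlim' hc'.ne').congr' ?_
      filter_upwards [eventually_gt_atTop (0 : ℝ)] with B hB
      have hB' : B ≠ 0 := hB.ne'
      rw [Pi.div_apply, div_div_div_cancel_right₀ hB']
      rfl
    · constructor
      · intro h
        by_contra hcon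
        have h0 : c = 0 := le_antisymm (not_lt.1 hcon) hc0
        rw [h0, zero_div] at h
        exact lt_irrefl _ h
      · intro h
        positivity

end Pool.Agent.Results.MP_a3214d_nt.LocalConditions
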