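import Pool.Agent.H419.MX.Ram
import Pool.Agent.H419.MX.SQD
import Pool.Agent.H419.MX.QSX
import Pool.Agent.H419.MK.Sum2

/-!
# Malle's conjecture for `C₂ ≀ H`: the constants under ramification conditions

Let `H` be an admissible finite group with at least two elements (solvable groups and the symmetric
groups `S_m`, `m ≥ 5`, are admissible), `G = C₂ ≀ H ≤ S_d` acting on `H × {0, 1}`, and `K` a number
field. There are weights `w_M > 0` for the Galois extensions `M` of `K` with group `H`, with a convergent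
sum, such that for EVERY set `T` of primes of `K` which do not divide `2` the number of the
`G`-extensions of `K` (up to isomorphism) with discriminant of norm at most `B` which are unramified at
all `𝔭 ∈ T` is `c(T) B + o(B)` with

  `c(T) = ∑_M w_M ρ_M(T)`,  `ρ_M(T) = ∏_{𝔓 | 𝔭 ∈ T} (1 + 1 / N 𝔓)⁻¹`

if `M` is unramified at all `𝔭 ∈ T`, and `ρ_M(T) = 0` otherwise. The `ρ_M` are multiplicative, so the
ramification at the odd primes is independent for fixed `M`, and the distribution is a mixture of product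
measures: for every finite set `R` of odd primes disjoint from `T` the number of those which are also
ramified at all `𝔭 ∈ R` is `c B + o(B)` with `c = ∑_M w_M ρ_M(T) ∏_{𝔭 ∈ R} (1 - ρ_M(𝔭))`. Moreover `c(T)`
is the infimum of the `c(T₀)`, `T₀ ⊆ T` finite.
-/

set_option autoImplicit false
set_option linter.unusedSectionVars false

open Filter NumberField

namespace Pool.Agent.Results.MP_a3214d_nt.MixtureFormula

/-- `G ≤ S_d` is, up to a bijection `f` of `{1, ..., d}` with `H × {0, 1}`, the wreath product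
`C₂ ≀ H`: it consists of all permutations `π` for which there is `h ∈ H` such that `π` maps the block
`{x} × {0, 1}` to the block `{h x} × {0, 1}`, for all `x ∈ H`. -/
def IsC2Wreath (H : Type) [Group H] {d : ℕ} (G : Subgroup (Equiv.Perm (Fin d))) : Prop :=
  ∃ f : Fin d ≃ H × Bool, ∀ π : Equiv.Perm (Fin d), π ∈ G ↔ ∃ h : H, ∀ i, (f (π i)).1 = h * (f i).1

/-- `H` has a solvable normal subgroup `S` such that `H / S` is trivial or has a faithful transitive
action on `u` points (the cosets of `U`) with `4 u ^ 2 < 3 |H / S|`. -/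
def IsAdmissible (H : Type) [Group H] : Prop :=
  ∃ (S : Subgroup H) (_ : S.Normal), Group.IsSolvable S ∧
    (S = ⊤ ∨ ∃ U : Subgroup (H ⧸ S), U.normalCore = ⊥ ∧
      4 * U.index ^ 2 < 3 * Nat.card (H ⧸ S))

/-- `M / K` is a finite Galois extension with group isomorphic to `H`. -/
def IsExt (K : Type) [Field K] (H : Type) [Group H]
    (M : IntermediateField K (AlgebraicClosure K)) : Prop :=
  FiniteDimensional K M ∧ IsGalois K M ∧ Nonempty ((M ≃ₐ[K] M) ≃* H)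

/-- The fields `L` between `K` and its algebraic closure, of degree `d` over `K`, whose Galois group,
acting on the embeddings, is `G` (up to numbering), and whose relative discriminant has norm at most
`B` (that is, `|d_L| ≤ B |d_K| ^ d`). -/
def Ext (K : Type) [Field K] [NumberField K] (d : ℕ) (G : Subgroup (Equiv.Perm (Fin d)))
    (B : ℝ) : Set (IntermediateField K (AlgebraicClosure K)) :=
  {L | Module.finrank K L = d ∧
    (∃ e : (L →ₐ[K] AlgebraicClosure K) ≃ Fin d, ∀ π : Equiv.Perm (Fin d),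
      π ∈ G ↔ ∃ σ : AlgebraicClosure K ≃ₐ[K] AlgebraicClosure K,
        ∀ φ : L →ₐ[K] AlgebraicClosure K, e (σ.toAlgHom.comp φ) = π (e φ)) ∧
    ∃ h : NumberField L,
      ((|@NumberField.discr L _ h| : ℤ) : ℝ) ≤ B * ((|NumberField.discr K| : ℤ) : ℝ) ^ d}

/-- `L / K` is unramified at the prime `𝔭` of `K`: the ring `𝓞_L / 𝔭 𝓞_L` is reduced. -/
def Unramified (K : Type) [Field K] (L : Type) [Field L] [Algebra K L] (𝔭 : Ideal (𝓞 K)) : Prop :=
  IsReduced (𝓞 L ⧸ 𝔭.map (algebraMap (𝓞 K) (𝓞 L)))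

/-- A set of (nonzero) primes of `K` which do not divide `2`. -/
def IsOddPrimeSet (K : Type) [Field K] (T : Set (Ideal (𝓞 K))) : Prop :=
  ∀ 𝔭 ∈ T, 𝔭.IsPrime ∧ 𝔭 ≠ ⊥ ∧ (2 : 𝓞 K) ∉ 𝔭

/-- The primes of `M` above the primes in `T`. -/
def PrimesAbove (K M : Type) [Field K] [Field M] [Algebra K M] (T : Set (Ideal (𝓞 K))) :
    Set (Ideal (𝓞 M)) :=
  {𝔓 : Ideal (𝓞 M) | 𝔓.IsPrime ∧ 𝔓.comap (algebraMap (𝓞 K) (𝓞 M)) ∈ T}

/-- The product of `(1 + 1 / N 𝔓)⁻¹` over the (finitely or infinitely many) `𝔓 ∈ W`: the infimum of the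
products over the finite subsets of `W`. Here `N 𝔓` is the number of elements of `𝓞_M / 𝔓`. -/
noncomputable def EulerProduct (M : Type) [Field M] (W : Set (Ideal (𝓞 M))) : ℝ :=
  ⨅ W₀ : {W₀ : Finset (Ideal (𝓞 M)) // ∀ 𝔓 ∈ W₀, 𝔓 ∈ W},
    ∏ 𝔓 ∈ W₀.1, (1 + (1 : ℝ) / Nat.card (𝓞 M ⧸ 𝔓))⁻¹

open Classical in
/-- `ρ_M(T)`: the product of `(1 + 1 / N 𝔓)⁻¹` over the primes `𝔓` of `M` above the primes in `T`, if
`M / K` is unramified at all `𝔭 ∈ T`, and `0` otherwise. -/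
noncomputable def rho (K M : Type) [Field K] [Field M] [Algebra K M] (T : Set (Ideal (𝓞 K))) : ℝ :=
  if ∀ 𝔭 ∈ T, Unramified K M 𝔭 then EulerProduct M (PrimesAbove K M T) else 0

/-- `N(K, G; B)`: the number of the fields in `Ext K d G B` up to `K`-isomorphism. -/
noncomputable def N (K : Type) [Field K] [NumberField K] (d : ℕ)
    (G : Subgroup (Equiv.Perm (Fin d))) (B : ℝ) : ℕ :=
  Nat.card (Quot fun L L' : Ext K d G B => Nonempty (L.1 ≃ₐ[K] L'.1))

/-- `N(K, G; B; T)`: the number of those which are unramified at all `𝔭 ∈ T`. -/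
noncomputable def NUnr (K : Type) [Field K] [NumberField K] (d : ℕ)
    (G : Subgroup (Equiv.Perm (Fin d))) (T : Set (Ideal (𝓞 K))) (B : ℝ) : ℕ :=
  Nat.card (Quot fun L L' : {L : IntermediateField K (AlgebraicClosure K) |
    L ∈ Ext K d G B ∧ ∀ 𝔭 ∈ T, Unramified K L 𝔭} => Nonempty (L.1 ≃ₐ[K] L'.1))

/-- `N(K, G; B; T, R)`: the number of those which are unramified at all `𝔭 ∈ T` and ramified at all
`𝔭 ∈ R`. -/
noncomputable def NRam (K : Type) [Field K] [NumberField K] (d : ℕ)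
    (G : Subgroup (Equiv.Perm (Fin d))) (T R : Set (Ideal (𝓞 K))) (B : ℝ) : ℕ :=
  Nat.card (Quot fun L L' : {L : IntermediateField K (AlgebraicClosure K) |
    L ∈ Ext K d G B ∧ ((∀ 𝔭 ∈ T, Unramified K L 𝔭) ∧ ∀ 𝔭 ∈ R, ¬ Unramified K L 𝔭)} =>
      Nonempty (L.1 ≃ₐ[K] L'.1))

theorem isAdmissible_of_solvable (H : Type) [Group H] (h : Group.IsSolvable H) :
    IsAdmissible H :=
  ⟨⊤, inferInstance, inferInstance, Or.inl rfl⟩

theorem isAdmissible_of_coreFree (H : Type) [Group H] (U : Subgroup H)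
    (hU : U.normalCore = ⊥) (hc : 4 * U.index ^ 2 < 3 * Nat.card H) : IsAdmissible H := by
  let e : H ⧸ (⊥ : Subgroup H) ≃* H := QuotientGroup.quotientBot
  refine ⟨⊥, inferInstance, inferInstance, Or.inr ⟨U.comap e.toMonoidHom, ?_, ?_⟩⟩
  · rw [eq_bot_iff]
    intro x hx
    have h1 : e x ∈ U.normalCore := by
      intro b
      have h2 := hx (e.symm b)
      have h3 : e (e.symm b * x * (e.symm b)⁻¹) ∈ U := h2
      simpa using h3
    rw [hU, Subgroup.mem_bot] at h1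
    rw [Subgroup.mem_bot]
    exact (map_eq_one_iff e e.injective).1 h1
  · have h1 : (U.comap e.toMonoidHom).index = U.index :=
      Subgroup.index_comap_of_surjective U e.surjective
    rw [h1, Nat.card_congr e.toEquiv]
    exact hc

theorem isAdmissible_perm (m : ℕ) (hm : 5 ≤ m) : IsAdmissible (Equiv.Perm (Fin m)) := by
  obtain ⟨k, rfl⟩ : ∃ k, m = k + 5 := ⟨m - 5, by omega⟩
  let U : Subgroup (Equiv.Perm (Fin (k + 5))) := MulAction.stabilizer _ (0 : Fin (k + 5))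
  have hS : U.index = k + 5 := by
    change (MulAction.stabilizer (Equiv.Perm (Fin (k + 5))) (0 : Fin (k + 5))).index = k + 5
    rw [MulAction.index_stabilizer, MulAction.orbit_eq_univ]
    simp
  refine isAdmissible_of_coreFree _ U ?_ ?_
  · rw [eq_bot_iff]
    intro π h
    have h1 : ∀ x : Equiv.Perm (Fin (k + 5)), x * π * x⁻¹ ∈ U := h
    rw [Subgroup.mem_bot]
    ext i
    have h2 := h1 (Equiv.swap 0 i)
    have h3 : (Equiv.swap 0 i * π * (Equiv.swap 0 i)⁻¹) (0 : Fin (k + 5)) = 0 := h2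
    rw [Equiv.Perm.mul_apply, Equiv.Perm.mul_apply, Equiv.swap_inv, Equiv.swap_apply_left] at h3
    have h4 := congrArg (Equiv.swap 0 i) h3
    rw [Equiv.swap_apply_self, Equiv.swap_apply_left] at h4
    rw [h4]; rfl
  · rw [hS, Nat.card_perm, Nat.card_fin]
    have hf : (k + 5).factorial = (k + 5) * ((k + 4) * ((k + 3) * (k + 2).factorial)) := by
      simp only [Nat.factorial_succ]
    have h2 : 2 ≤ (k + 2).factorial := by
      have := Nat.self_le_factorial (k + 2)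
      omega
    rw [hf]
    have h3 : (k + 5) * ((k + 4) * ((k + 3) * 2)) ≤
        (k + 5) * ((k + 4) * ((k + 3) * (k + 2).factorial)) := by gcongr
    nlinarith

theorem N_eq (K : Type) [Field K] [NumberField K] (d : ℕ)
    (G : Subgroup (Equiv.Perm (Fin d))) (B : ℝ) : NUnr K d G ∅ B = N K d G B := by
  have h : {L : IntermediateField K (AlgebraicClosure K) |
      L ∈ Ext K d G B ∧ ∀ 𝔭 ∈ (∅ : Set (Ideal (𝓞 K))), Unramified K L 𝔭} = Ext K d G B := by
    ext L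
    exact ⟨fun h => h.1, fun h => ⟨h, fun 𝔭 h𝔭 => absurd h𝔭 (Set.notMem_empty 𝔭)⟩⟩
  unfold NUnr N
  rw [h]


theorem euler_eq (M : Type) [Field M] [NumberField M] (W : Set (Ideal (𝓞 M))) :
    EulerProduct M W = Pool.Agent.H419.MX.locW M W := by
  have h : ∀ 𝔓 : Ideal (𝓞 M), Nat.card (𝓞 M ⧸ 𝔓) = Ideal.absNorm 𝔓 := fun 𝔓 => by
    rw [Ideal.absNorm_apply, Submodule.cardQuot_apply]
  unfold EulerProduct Pool.Agent.H419.MX.locW Pool.Agent.H419.MX.loc
  simp only [h]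

theorem rho_eq (K M : Type) [Field K] [NumberField K] [Field M] [NumberField M] [Algebra K M]
    (T : Set (Ideal (𝓞 K))) : rho K M T = Pool.Agent.H419.MX.locM K M T := by
  unfold rho Pool.Agent.H419.MX.locM
  rw [euler_eq]
  rfl

section

variable {M : Type} [Field M]

/-- the finite products -/
noncomputable def fp (W₀ : Finset (Ideal (𝓞 M))) : ℝ :=
  ∏ 𝔓 ∈ W₀, (1 + (1 : ℝ) / Nat.card (𝓞 M ⧸ 𝔓))⁻¹

theorem fp_nonneg (W₀ : Finset (Ideal (𝓞 M))) : 0 ≤ fp W₀ :=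
  Finset.prod_nonneg fun _ _ => by positivity

theorem fac_le (𝔓 : Ideal (𝓞 M)) : (1 + (1 : ℝ) / Nat.card (𝓞 M ⧸ 𝔓))⁻¹ ≤ 1 := by
  have h : (0 : ℝ) ≤ (1 : ℝ) / Nat.card (𝓞 M ⧸ 𝔓) := by positivity
  exact inv_le_one_of_one_le₀ (by linarith)

theorem fp_le_one (W₀ : Finset (Ideal (𝓞 M))) : fp W₀ ≤ 1 :=
  Finset.prod_le_one (fun _ _ => by positivity) fun 𝔓 _ => fac_le 𝔓

theorem bdd (W : Set (Ideal (𝓞 M))) : BddBelow (Set.range fun
    W₀ : {W₀ : Finset (Ideal (𝓞 M)) // ∀ 𝔓 ∈ W₀, 𝔓 ∈ W} => fp W₀.1) :=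
  ⟨0, by rintro _ ⟨W₀, rfl⟩; exact fp_nonneg W₀.1⟩

instance (W : Set (Ideal (𝓞 M))) :
    Nonempty {W₀ : Finset (Ideal (𝓞 M)) // ∀ 𝔓 ∈ W₀, 𝔓 ∈ W} :=
  ⟨⟨∅, fun 𝔓 h => absurd h (Finset.notMem_empty 𝔓)⟩⟩

theorem ep_nonneg (W : Set (Ideal (𝓞 M))) : 0 ≤ EulerProduct M W :=
  le_ciInf fun W₀ => fp_nonneg W₀.1

theorem ep_le (W : Set (Ideal (𝓞 M))) (W₀ : Finset (Ideal (𝓞 M))) (h : ∀ 𝔓 ∈ W₀, 𝔓 ∈ W) :
    EulerProduct M W ≤ fp W₀ :=
  ciInf_le (bdd W) ⟨W₀, h⟩

theorem ep_le_one (W : Set (Ideal (𝓞 M))) : EulerProduct M W ≤ 1 :=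
  (ep_le W ∅ fun 𝔓 h => absurd h (Finset.notMem_empty 𝔓)).trans (fp_le_one ∅)

theorem ep_mono (W W' : Set (Ideal (𝓞 M))) (h : W ⊆ W') : EulerProduct M W' ≤ EulerProduct M W :=
  le_ciInf fun W₀ => ep_le W' W₀.1 fun 𝔓 h𝔓 => h (W₀.2 𝔓 h𝔓)

theorem exists_lt (W : Set (Ideal (𝓞 M))) (x : ℝ) (hx : EulerProduct M W < x) :
    ∃ W₀ : Finset (Ideal (𝓞 M)), (∀ 𝔓 ∈ W₀, 𝔓 ∈ W) ∧ fp W₀ < x := by
  obtain ⟨⟨W₀, h⟩, h1⟩ := exists_lt_of_ciInf_lt hx
  exact ⟨W₀, h, h1⟩

theorem ep_union (W W' : Set (Ideal (𝓞 M))) (h : Disjoint W W') :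
    EulerProduct M (W ∪ W') = EulerProduct M W * EulerProduct M W' := by
  classical
  refine le_antisymm ?_ ?_
  · have h1 : ∀ W₀ : Finset (Ideal (𝓞 M)), (∀ 𝔓 ∈ W₀, 𝔓 ∈ W) → ∀ W₁ : Finset (Ideal (𝓞 M)),
        (∀ 𝔓 ∈ W₁, 𝔓 ∈ W') → EulerProduct M (W ∪ W') ≤ fp W₀ * fp W₁ := by
      intro W₀ hW₀ W₁ hW₁
      have h2 : Disjoint W₀ W₁ := by
        rw [Finset.disjoint_left]
        intro 𝔓 h3 h4
        exact Set.disjoint_left.1 h (hW₀ 𝔓 h3) (hW₁ 𝔓 h4)
      have h3 : fp W₀ * fp W₁ = fp (W₀ ∪ W₁) := by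
        unfold fp
        rw [Finset.prod_union h2]
      rw [h3]
      refine ep_le _ _ fun 𝔓 h𝔓 => ?_
      rcases Finset.mem_union.1 h𝔓 with h5 | h5
      · exact Or.inl (hW₀ 𝔓 h5)
      · exact Or.inr (hW₁ 𝔓 h5)
    have h2 : ∀ W₀ : Finset (Ideal (𝓞 M)), (∀ 𝔓 ∈ W₀, 𝔓 ∈ W) →
        EulerProduct M (W ∪ W') ≤ fp W₀ * EulerProduct M W' := by
      intro W₀ hW₀
      unfold EulerProduct
      rw [Real.mul_iInf_of_nonneg (fp_nonneg W₀)]
      exact le_ciInf fun W₁ => h1 W₀ hW₀ W₁.1 W₁.2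
    have h3 : EulerProduct M W * EulerProduct M W' =
        ⨅ W₀ : {W₀ : Finset (Ideal (𝓞 M)) // ∀ 𝔓 ∈ W₀, 𝔓 ∈ W}, fp W₀.1 * EulerProduct M W' :=
      Real.iInf_mul_of_nonneg (ep_nonneg W') _
    rw [h3]
    exact le_ciInf fun W₀ => h2 W₀.1 W₀.2
  · refine le_ciInf ?_
    rintro ⟨W₀, hW₀⟩
    have h1 : fp W₀ = fp (W₀.filter fun 𝔓 => 𝔓 ∈ W) * fp (W₀.filter fun 𝔓 => ¬ 𝔓 ∈ W) :=
      (Finset.prod_filter_mul_prod_filter_not W₀ (fun 𝔓 => 𝔓 ∈ W) _).symm
    change _ ≤ fp W₀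
    rw [h1]
    refine mul_le_mul (ep_le _ _ fun 𝔓 h𝔓 => (Finset.mem_filter.1 h𝔓).2)
      (ep_le _ _ fun 𝔓 h𝔓 => ?_) (ep_nonneg _) (fp_nonneg _)
    obtain ⟨h2, h3⟩ := Finset.mem_filter.1 h𝔓
    rcases hW₀ 𝔓 h2 with h4 | h4
    · exact absurd h4 h3
    · exact h4

end

section

variable {K M : Type} [Field K] [Field M] [Algebra K M]

theorem rho_nonneg (T : Set (Ideal (𝓞 K))) : 0 ≤ rho K M T := by
  unfold rho
  split_ifs
  · exact ep_nonneg _
  · exact le_rfl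

theorem rho_le_one (T : Set (Ideal (𝓞 K))) : rho K M T ≤ 1 := by
  unfold rho
  split_ifs
  · exact ep_le_one _
  · exact zero_le_one

theorem rho_mono (T T' : Set (Ideal (𝓞 K))) (h : T ⊆ T') : rho K M T' ≤ rho K M T := by
  by_cases h1 : ∀ 𝔭 ∈ T', Unramified K M 𝔭
  · have e1 : rho K M T' = EulerProduct M (PrimesAbove K M T') := if_pos h1
    have e2 : rho K M T = EulerProduct M (PrimesAbove K M T) := if_pos fun 𝔭 h𝔭 => h1 𝔭 (h h𝔭)
    rw [e1, e2]
    exact ep_mono _ _ fun 𝔓 h𝔓 => ⟨h𝔓.1, h h𝔓.2⟩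
  · have e1 : rho K M T' = 0 := if_neg h1
    rw [e1]
    exact rho_nonneg T

theorem rho_union (T T' : Set (Ideal (𝓞 K))) (h : Disjoint T T') :
    rho K M (T ∪ T') = rho K M T * rho K M T' := by
  by_cases h1 : ∀ 𝔭 ∈ T, Unramified K M 𝔭
  · by_cases h2 : ∀ 𝔭 ∈ T', Unramified K M 𝔭
    · have e1 : rho K M T = EulerProduct M (PrimesAbove K M T) := if_pos h1
      have e2 : rho K M T' = EulerProduct M (PrimesAbove K M T') := if_pos h2
      have e3 : rho K M (T ∪ T') = EulerProduct M (PrimesAbove K M (T ∪ T')) := if_pos (by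
        rintro 𝔭 (h3 | h3)
        · exact h1 𝔭 h3
        · exact h2 𝔭 h3)
      have e4 : PrimesAbove K M (T ∪ T') = PrimesAbove K M T ∪ PrimesAbove K M T' := by
        ext 𝔓
        constructor
        · rintro ⟨h3, h4 | h4⟩
          · exact Or.inl ⟨h3, h4⟩
          · exact Or.inr ⟨h3, h4⟩
        · rintro (⟨h3, h4⟩ | ⟨h3, h4⟩)
          · exact ⟨h3, Or.inl h4⟩
          · exact ⟨h3, Or.inr h4⟩
      rw [e1, e2, e3, e4]
      refine ep_union _ _ ?_
      rw [Set.disjoint_left]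
      rintro 𝔓 ⟨-, h3⟩ ⟨-, h4⟩
      exact Set.disjoint_left.1 h h3 h4
    · have e1 : rho K M T' = 0 := if_neg h2
      have e2 : rho K M (T ∪ T') = 0 := if_neg fun h3 => h2 fun 𝔭 h𝔭 => h3 𝔭 (Or.inr h𝔭)
      rw [e1, e2, mul_zero]
  · have e1 : rho K M T = 0 := if_neg h1
    have e2 : rho K M (T ∪ T') = 0 := if_neg fun h3 => h1 fun 𝔭 h𝔭 => h3 𝔭 (Or.inl h𝔭)
    rw [e1, e2, zero_mul]

theorem rho_empty : rho K M ∅ = 1 := by
  have e1 : rho K M ∅ = EulerProduct M (PrimesAbove K M ∅) :=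
    if_pos fun 𝔭 h => absurd h (Set.notMem_empty 𝔭)
  rw [e1]
  refine le_antisymm (ep_le_one _) (le_ciInf ?_)
  rintro ⟨W₀, hW₀⟩
  have h0 : W₀ = ∅ := Finset.eq_empty_of_forall_notMem fun 𝔓 h => (hW₀ 𝔓 h).2
  subst h0
  simp

/-- the finite subsets determine `ρ` -/
theorem rho_tendsto (T : Set (Ideal (𝓞 K))) :
    Tendsto (fun T₀ : Finset T => rho K M (T₀.map (Function.Embedding.subtype _) :
      Set (Ideal (𝓞 K)))) atTop (nhds (rho K M T)) := by
  classical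
  have hsub : ∀ T₀ : Finset T, ((T₀.map (Function.Embedding.subtype _) :
      Finset (Ideal (𝓞 K))) : Set (Ideal (𝓞 K))) ⊆ T := by
    intro T₀ 𝔭 h
    rw [Finset.mem_coe, Finset.mem_map] at h
    obtain ⟨𝔮, -, rfl⟩ := h
    exact 𝔮.2
  rw [tendsto_order]
  constructor
  · intro x hx
    exact Eventually.of_forall fun T₀ => hx.trans_le (rho_mono _ _ (hsub T₀))
  · intro x hx
    have key : ∃ T₀ : Finset T, rho K M (T₀.map (Function.Embedding.subtype _) :
        Set (Ideal (𝓞 K))) < x := by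
      by_cases h1 : ∀ 𝔭 ∈ T, Unramified K M 𝔭
      · have e1 : rho K M T = EulerProduct M (PrimesAbove K M T) := if_pos h1
        rw [e1] at hx
        obtain ⟨W₀, h2, h3⟩ := exists_lt _ _ hx
        set T₀ : Finset T := (W₀.attach.image fun 𝔓 =>
          (⟨𝔓.1.comap (algebraMap (𝓞 K) (𝓞 M)), (h2 𝔓.1 𝔓.2).2⟩ : T)) with hT₀
        refine ⟨T₀, lt_of_le_of_lt ?_ h3⟩
        have e2 : rho K M (T₀.map (Function.Embedding.subtype _) : Set (Ideal (𝓞 K))) =
            EulerProduct M (PrimesAbove K M (T₀.map (Function.Embedding.subtype _) :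
              Set (Ideal (𝓞 K)))) := if_pos fun 𝔭 h𝔭 => h1 𝔭 (hsub T₀ h𝔭)
        rw [e2]
        refine ep_le _ _ fun 𝔓 h𝔓 => ⟨(h2 𝔓 h𝔓).1, ?_⟩
        rw [Finset.mem_coe, Finset.mem_map]
        exact ⟨⟨𝔓.comap (algebraMap (𝓞 K) (𝓞 M)), (h2 𝔓 h𝔓).2⟩,
          Finset.mem_image.2 ⟨⟨𝔓, h𝔓⟩, Finset.mem_attach _ _, rfl⟩, rfl⟩
      · push Not at h1
        obtain ⟨𝔭, h𝔭, h2⟩ := h1
        refine ⟨{⟨𝔭, h𝔭⟩}, ?_⟩
        have e1 : rho K M T = 0 := if_neg fun h => h2 (h 𝔭 h𝔭)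
        have e2 : rho K M ((({⟨𝔭, h𝔭⟩} : Finset T).map (Function.Embedding.subtype _) :
            Finset (Ideal (𝓞 K))) : Set (Ideal (𝓞 K))) = 0 := if_neg fun h => h2 (h 𝔭 (by
              rw [Finset.mem_coe, Finset.mem_map]
              exact ⟨⟨𝔭, h𝔭⟩, Finset.mem_singleton_self _, rfl⟩))
        rw [e2]
        rwa [e1] at hx
    obtain ⟨T₀, h4⟩ := key
    filter_upwards [eventually_ge_atTop T₀] with T₁ h5
    refine (rho_mono _ _ ?_).trans_lt h4
    intro 𝔭 h𝔭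
    rw [Finset.mem_coe, Finset.mem_map] at h𝔭 ⊢
    obtain ⟨𝔮, h6, h7⟩ := h𝔭
    exact ⟨𝔮, h5 h6, h7⟩

end

/-- `c(T) = ∑_M w_M ρ_M(T)`. -/
noncomputable def const (K : Type) [Field K] [NumberField K] (H : Type) [Group H]
    (w : IntermediateField K (AlgebraicClosure K) → ℝ) (T : Set (Ideal (𝓞 K))) : ℝ :=
  ∑' M : {M : IntermediateField K (AlgebraicClosure K) // IsExt K H M}, w M.1 * rho K M.1 T

theorem nram_empty (K : Type) [Field K] [NumberField K] (d : ℕ)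
    (G : Subgroup (Equiv.Perm (Fin d))) (T : Set (Ideal (𝓞 K))) (B : ℝ) :
    NRam K d G T ∅ B = NUnr K d G T B := by
  have h : {L : IntermediateField K (AlgebraicClosure K) | L ∈ Ext K d G B ∧
      ((∀ 𝔭 ∈ T, Unramified K L 𝔭) ∧ ∀ 𝔭 ∈ (∅ : Set (Ideal (𝓞 K))), ¬ Unramified K L 𝔭)} =
      {L : IntermediateField K (AlgebraicClosure K) |
        L ∈ Ext K d G B ∧ ∀ 𝔭 ∈ T, Unramified K L 𝔭} := by
    ext L
    exact ⟨fun h => ⟨h.1, h.2.1⟩, fun h => ⟨h.1, h.2, fun 𝔭 h𝔭 => absurd h𝔭 (Set.notMem_empty 𝔭)⟩⟩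
  unfold NRam NUnr
  rw [h]

/-- one more ramified prime -/
theorem nram_insert (K : Type) [Field K] [NumberField K] (H : Type) [Group H] [Finite H]
    (h2 : 2 ≤ Nat.card H) (hH : IsAdmissible H) (d : ℕ) (G : Subgroup (Equiv.Perm (Fin d)))
    (hG : IsC2Wreath H G) (T R : Set (Ideal (𝓞 K))) (𝔭 : Ideal (𝓞 K)) (B : ℝ) (hB : 0 < B) :
    NRam K d G T R B = NRam K d G (insert 𝔭 T) R B + NRam K d G T (insert 𝔭 R) B := by
  obtain ⟨s, hs, hsum⟩ := Pool.Agent.H419.MK.sum2 K (AlgebraicClosure K) H hH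
  have hiso : ∀ (𝔮 : Ideal (𝓞 K)) (L L' : IntermediateField K (AlgebraicClosure K)),
      (L ≃ₐ[K] L') → Unramified K L 𝔮 → Unramified K L' 𝔮 := fun 𝔮 L L' e h =>
    Pool.Agent.H419.RM.unr_iso e h
  have key := Pool.Agent.H419.MX.split_count K H h2 s hs hsum G hG
    (fun L => (∀ 𝔮 ∈ T, Unramified K L 𝔮) ∧ ∀ 𝔮 ∈ R, ¬ Unramified K L 𝔮)
    (fun L => Unramified K L 𝔭)
    (fun L L' e h => ⟨fun 𝔮 h𝔮 => hiso 𝔮 L L' e (h.1 𝔮 h𝔮),
      fun 𝔮 h𝔮 h' => h.2 𝔮 h𝔮 (hiso 𝔮 L' L e.symm h')⟩)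
    (fun L L' e h => hiso 𝔭 L L' e h) B hB
  have h3 : {L : IntermediateField K (AlgebraicClosure K) | L ∈ Ext K d G B ∧
      ((∀ 𝔮 ∈ insert 𝔭 T, Unramified K L 𝔮) ∧ ∀ 𝔮 ∈ R, ¬ Unramified K L 𝔮)} =
      {L : IntermediateField K (AlgebraicClosure K) | L ∈ Ext K d G B ∧
      (((∀ 𝔮 ∈ T, Unramified K L 𝔮) ∧ ∀ 𝔮 ∈ R, ¬ Unramified K L 𝔮) ∧ Unramified K L 𝔭)} := by
    ext L
    constructor
    · rintro ⟨h4, h5, h6⟩
      exact ⟨h4, ⟨fun 𝔮 h𝔮 => h5 𝔮 (Set.mem_insert_of_mem 𝔭 h𝔮), h6⟩,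
        h5 𝔭 (Set.mem_insert 𝔭 T)⟩
    · rintro ⟨h4, ⟨h5, h6⟩, h7⟩
      refine ⟨h4, ?_, h6⟩
      rintro 𝔮 (rfl | h8)
      · exact h7
      · exact h5 𝔮 h8
  have h4 : {L : IntermediateField K (AlgebraicClosure K) | L ∈ Ext K d G B ∧
      ((∀ 𝔮 ∈ T, Unramified K L 𝔮) ∧ ∀ 𝔮 ∈ insert 𝔭 R, ¬ Unramified K L 𝔮)} =
      {L : IntermediateField K (AlgebraicClosure K) | L ∈ Ext K d G B ∧
      (((∀ 𝔮 ∈ T, Unramified K L 𝔮) ∧ ∀ 𝔮 ∈ R, ¬ Unramified K L 𝔮) ∧ ¬ Unramified K L 𝔭)} := by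
    ext L
    constructor
    · rintro ⟨h4, h5, h6⟩
      exact ⟨h4, ⟨h5, fun 𝔮 h𝔮 => h6 𝔮 (Set.mem_insert_of_mem 𝔭 h𝔮)⟩,
        h6 𝔭 (Set.mem_insert 𝔭 R)⟩
    · rintro ⟨h4, ⟨h5, h6⟩, h7⟩
      refine ⟨h4, h5, ?_⟩
      rintro 𝔮 (rfl | h8)
      · exact h7
      · exact h6 𝔮 h8
  unfold NRam
  rw [h3, h4]
  exact key

/-- the joint distribution -/
theorem joint (K : Type) [Field K] [NumberField K] (H : Type) [Group H] [Finite H]
    (h2 : 2 ≤ Nat.card H) (hH : IsAdmissible H) (d : ℕ) (G : Subgroup (Equiv.Perm (Fin d)))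
    (hG : IsC2Wreath H G) (w : IntermediateField K (AlgebraicClosure K) → ℝ)
    (hw : ∀ M : IntermediateField K (AlgebraicClosure K), IsExt K H M → 0 < w M)
    (hs : Summable fun M : {M : IntermediateField K (AlgebraicClosure K) // IsExt K H M} => w M.1)
    (hlim : ∀ T : Set (Ideal (𝓞 K)), IsOddPrimeSet K T →
      Tendsto (fun B : ℝ => (NUnr K d G T B : ℝ) / B) atTop (nhds (const K H w T)))
    (R : Finset (Ideal (𝓞 K))) : ∀ T : Set (Ideal (𝓞 K)), IsOddPrimeSet K T →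
    IsOddPrimeSet K (R : Set (Ideal (𝓞 K))) → Disjoint T (R : Set (Ideal (𝓞 K))) →
      Tendsto (fun B : ℝ => (NRam K d G T R B : ℝ) / B) atTop
        (nhds (∑' M : {M : IntermediateField K (AlgebraicClosure K) // IsExt K H M},
          w M.1 * (rho K M.1 T * ∏ 𝔭 ∈ R, (1 - rho K M.1 {𝔭})))) := by
  classical
  induction R using Finset.induction_on with
  | empty =>
    intro T hT _ _
    simp only [Finset.coe_empty, Finset.prod_empty, mul_one, nram_empty]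
    exact hlim T hT
  | insert 𝔭 R hn ih =>
    intro T hT hR hd
    have hR' : IsOddPrimeSet K (R : Set (Ideal (𝓞 K))) := fun 𝔮 h𝔮 =>
      hR 𝔮 (Finset.mem_coe.2 (Finset.mem_insert_of_mem h𝔮))
    have hp := hR 𝔭 (Finset.mem_coe.2 (Finset.mem_insert_self 𝔭 R))
    have hTp : 𝔭 ∉ T := fun h =>
      Set.disjoint_left.1 hd h (Finset.mem_coe.2 (Finset.mem_insert_self 𝔭 R))
    have hd' : Disjoint T (R : Set (Ideal (𝓞 K))) := by
      rw [Set.disjoint_left]
      intro 𝔮 h3 h4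
      exact Set.disjoint_left.1 hd h3 (Finset.mem_coe.2 (Finset.mem_insert_of_mem h4))
    have hT' : IsOddPrimeSet K (insert 𝔭 T) := by
      rintro 𝔮 (rfl | h3)
      · exact hp
      · exact hT 𝔮 h3
    have hd2 : Disjoint (insert 𝔭 T) (R : Set (Ideal (𝓞 K))) := by
      rw [Set.disjoint_left]
      rintro 𝔮 (rfl | h3) h4
      · exact hn h4
      · exact Set.disjoint_left.1 hd' h3 h4
    have h1 := ih T hT hR' hd'
    have h3 := ih (insert 𝔭 T) hT' hR' hd2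
    have hb : ∀ (S : Set (Ideal (𝓞 K)))
        (M : {M : IntermediateField K (AlgebraicClosure K) // IsExt K H M}),
        0 ≤ w M.1 * (rho K M.1 S * ∏ 𝔮 ∈ R, (1 - rho K M.1 {𝔮})) ∧
        w M.1 * (rho K M.1 S * ∏ 𝔮 ∈ R, (1 - rho K M.1 {𝔮})) ≤ w M.1 := by
      intro S M
      have h4 := hw M.1 M.2
      have h5 : 0 ≤ ∏ 𝔮 ∈ R, (1 - rho K M.1 {𝔮}) :=
        Finset.prod_nonneg fun 𝔮 _ => sub_nonneg.2 (rho_le_one _)
      have h6 : ∏ 𝔮 ∈ R, (1 - rho K M.1 {𝔮}) ≤ 1 :=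
        Finset.prod_le_one (fun 𝔮 _ => sub_nonneg.2 (rho_le_one _)) fun 𝔮 _ => by
          linarith [rho_nonneg (K := K) (M := M.1) {𝔮}]
      refine ⟨mul_nonneg h4.le (mul_nonneg (rho_nonneg S) h5), ?_⟩
      exact mul_le_of_le_one_right h4.le (mul_le_one₀ (rho_le_one S) h5 h6)
    have hsS : ∀ S : Set (Ideal (𝓞 K)),
        Summable fun M : {M : IntermediateField K (AlgebraicClosure K) // IsExt K H M} =>
          w M.1 * (rho K M.1 S * ∏ 𝔮 ∈ R, (1 - rho K M.1 {𝔮})) := fun S =>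
      Summable.of_nonneg_of_le (fun M => (hb S M).1) (fun M => (hb S M).2) hs
    have h4 := h1.sub h3
    rw [← (hsS T).tsum_sub (hsS (insert 𝔭 T))] at h4
    have e : (fun M : {M : IntermediateField K (AlgebraicClosure K) // IsExt K H M} =>
        w M.1 * (rho K M.1 T * ∏ 𝔮 ∈ R, (1 - rho K M.1 {𝔮})) -
          w M.1 * (rho K M.1 (insert 𝔭 T) * ∏ 𝔮 ∈ R, (1 - rho K M.1 {𝔮}))) =
        fun M => w M.1 * (rho K M.1 T * ∏ 𝔮 ∈ insert 𝔭 R, (1 - rho K M.1 {𝔮})) := by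
      funext M
      have h5 : rho K M.1 (insert 𝔭 T) = rho K M.1 T * rho K M.1 {𝔭} := by
        rw [Set.insert_eq, Set.union_comm]
        refine rho_union _ _ ?_
        rw [Set.disjoint_singleton_right]
        exact hTp
      rw [h5, Finset.prod_insert hn]
      ring
    rw [e] at h4
    refine h4.congr' ?_
    filter_upwards [eventually_gt_atTop (0 : ℝ)] with B hB
    have h5 := nram_insert K H h2 hH d G hG T (R : Set (Ideal (𝓞 K))) 𝔭 B hB
    rw [Finset.coe_insert, ← sub_div, h5]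
    push_cast
    congr 1
    ring

/-- `c(T)` is the infimum of the `c(T₀)` -/
theorem const_inf (K : Type) [Field K] [NumberField K] (H : Type) [Group H]
    (w : IntermediateField K (AlgebraicClosure K) → ℝ)
    (hw : ∀ M : IntermediateField K (AlgebraicClosure K), IsExt K H M → 0 < w M)
    (hs : Summable fun M : {M : IntermediateField K (AlgebraicClosure K) // IsExt K H M} => w M.1)
    (T : Set (Ideal (𝓞 K))) (ε : ℝ) (hε : 0 < ε) :
    ∃ T₀ : Set (Ideal (𝓞 K)), T₀ ⊆ T ∧ T₀.Finite ∧ const K H w T ≤ const K H w T₀ ∧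
      const K H w T₀ ≤ const K H w T + ε := by
  have hb : ∀ (S : Set (Ideal (𝓞 K)))
      (M : {M : IntermediateField K (AlgebraicClosure K) // IsExt K H M}),
      0 ≤ w M.1 * rho K M.1 S ∧ w M.1 * rho K M.1 S ≤ w M.1 := by
    intro S M
    have h1 := hw M.1 M.2
    refine ⟨mul_nonneg h1.le (rho_nonneg S), ?_⟩
    exact mul_le_of_le_one_right h1.le (rho_le_one S)
  have hsS : ∀ S : Set (Ideal (𝓞 K)),
      Summable fun M : {M : IntermediateField K (AlgebraicClosure K) // IsExt K H M} =>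
        w M.1 * rho K M.1 S := fun S =>
    Summable.of_nonneg_of_le (fun M => (hb S M).1) (fun M => (hb S M).2) hs
  have h := tendsto_tsum_of_dominated_convergence (𝓕 := (atTop : Filter (Finset T)))
    (f := fun (T₀ : Finset T)
      (M : {M : IntermediateField K (AlgebraicClosure K) // IsExt K H M}) =>
        w M.1 * rho K M.1 (T₀.map (Function.Embedding.subtype _) : Set (Ideal (𝓞 K))))
    (g := fun M => w M.1 * rho K M.1 T) hs
    (fun M => (rho_tendsto T).const_mul (w M.1))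
    (Eventually.of_forall fun T₀ M => by
      rw [Real.norm_of_nonneg (hb _ M).1]
      exact (hb _ M).2)
  obtain ⟨T₀, hT₀⟩ := (h.eventually (gt_mem_nhds (lt_add_of_pos_right _ hε))).exists
  have hsub : ((T₀.map (Function.Embedding.subtype _) :
      Finset (Ideal (𝓞 K))) : Set (Ideal (𝓞 K))) ⊆ T := by
    intro 𝔭 h
    rw [Finset.mem_coe, Finset.mem_map] at h
    obtain ⟨𝔮, -, rfl⟩ := h
    exact 𝔮.2
  refine ⟨_, hsub, Finset.finite_toSet _, ?_, hT₀.le⟩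
  refine Summable.tsum_le_tsum (fun M => ?_) (hsS T) (hsS _)
  exact mul_le_mul_of_nonneg_left (rho_mono _ _ hsub) (hw M.1 M.2).le

/-- **The constants in Malle's conjecture for `C₂ ≀ H` under ramification conditions.** Solvable groups
and the symmetric groups `S_m` are admissible. Let `H` be an admissible group with at least two elements,
`G = C₂ ≀ H ≤ S_d`, and `K` a number field. There are weights `w_M > 0` for the Galois extensions `M` of
`K` with group `H`, with a convergent sum, with the following properties.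
1. For all sets `T` of odd primes of `K` the number `N(K, G; B; T)` of the `G`-extensions which are
   unramified at all `𝔭 ∈ T` is `c(T) B + o(B)` with `c(T) = ∑_M w_M ρ_M(T)`.
2. If `H` is a Galois group over `K`, then `c(∅) > 0`, and `N(K, G; B; T) / N(K, G; B)` converges to
   `c(T) / c(∅)`.
3. `ρ_M(T ∪ T') = ρ_M(T) ρ_M(T')` for disjoint `T, T'`, and `ρ_M(∅) = 1`.
4. For all finite sets `R` of odd primes disjoint from `T` the number of the `G`-extensions which are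
   unramified at all `𝔭 ∈ T` and ramified at all `𝔭 ∈ R` is `c B + o(B)` with
   `c = ∑_M w_M ρ_M(T) ∏_{𝔭 ∈ R} (1 - ρ_M(𝔭))`.
5. `c(T)` is the infimum of the `c(T₀)` over the finite subsets `T₀` of `T`. -/
theorem result :
    (∀ (H : Type) [Group H], Group.IsSolvable H → IsAdmissible H) ∧
    (∀ m : ℕ, 5 ≤ m → IsAdmissible (Equiv.Perm (Fin m))) ∧
    (∀ (K M : Type) [Field K] [Field M] [Algebra K M], rho K M ∅ = 1 ∧
      ∀ T T' : Set (Ideal (𝓞 K)), Disjoint T T' → rho K M (T ∪ T') = rho K M T * rho K M T') ∧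
    ∀ (K : Type) [Field K] [NumberField K] (H : Type) [Group H] [Finite H], 2 ≤ Nat.card H →
      IsAdmissible H → ∀ (d : ℕ) (G : Subgroup (Equiv.Perm (Fin d))), IsC2Wreath H G →
        ∃ w : IntermediateField K (AlgebraicClosure K) → ℝ,
          (∀ M : IntermediateField K (AlgebraicClosure K), IsExt K H M → 0 < w M) ∧
          (Summable fun M : {M : IntermediateField K (AlgebraicClosure K) // IsExt K H M} =>
            w M.1) ∧
          (∀ T : Set (Ideal (𝓞 K)), IsOddPrimeSet K T →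
            Tendsto (fun B : ℝ => (NUnr K d G T B : ℝ) / B) atTop (nhds (const K H w T)) ∧
            ((∃ M : IntermediateField K (AlgebraicClosure K), IsExt K H M) →
              0 < const K H w ∅ ∧ Tendsto (fun B : ℝ => (NUnr K d G T B : ℝ) / N K d G B) atTop
                (nhds (const K H w T / const K H w ∅)))) ∧
          (∀ (R : Finset (Ideal (𝓞 K))) (T : Set (Ideal (𝓞 K))), IsOddPrimeSet K T →
            IsOddPrimeSet K (R : Set (Ideal (𝓞 K))) → Disjoint T (R : Set (Ideal (𝓞 K))) →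
            Tendsto (fun B : ℝ => (NRam K d G T R B : ℝ) / B) atTop
              (nhds (∑' M : {M : IntermediateField K (AlgebraicClosure K) // IsExt K H M},
                w M.1 * (rho K M.1 T * ∏ 𝔭 ∈ R, (1 - rho K M.1 {𝔭}))))) ∧
          ∀ T : Set (Ideal (𝓞 K)), ∀ ε : ℝ, 0 < ε → ∃ T₀ : Set (Ideal (𝓞 K)), T₀ ⊆ T ∧
            T₀.Finite ∧ const K H w T ≤ const K H w T₀ ∧
            const K H w T₀ ≤ const K H w T + ε := by
  refine ⟨fun H _ h => isAdmissible_of_solvable H h, isAdmissible_perm,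
    fun K M _ _ _ => ⟨rho_empty, fun T T' h => rho_union T T' h⟩, ?_⟩
  intro K _ _ H _ _ h2 hH d G hG
  obtain ⟨s, hs, hsum⟩ := Pool.Agent.H419.MK.sum2 K (AlgebraicClosure K) H hH
  obtain ⟨w, hw, hws, hmain⟩ := Pool.Agent.H419.MX.coreX
    (Pool.Agent.H419.MX.QSX.t_QSX Pool.Agent.H419.MX.SQD.t_SQD) K H h2 s hs hsum G hG
  have hw' : ∀ M : IntermediateField K (AlgebraicClosure K), IsExt K H M → 0 < w M := hw
  have hws' : Summable fun M : {M : IntermediateField K (AlgebraicClosure K) // IsExt K H M} =>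
      w M.1 := hws
  have hlim : ∀ T : Set (Ideal (𝓞 K)), IsOddPrimeSet K T →
      Tendsto (fun B : ℝ => (NUnr K d G T B : ℝ) / B) atTop (nhds (const K H w T)) := by
    intro T hT
    exact hmain T hT (fun M => rho K M.1 T) (fun M h => rho_eq K M.1 T)
  refine ⟨w, hw', hws', fun T hT => ⟨hlim T hT, ?_⟩,
    joint K H h2 hH d G hG w hw' hws' hlim, ?_⟩
  · rintro ⟨M, hM⟩
    have hpos : 0 < const K H w ∅ := by
      have h1 : ∀ M' : {M : IntermediateField K (AlgebraicClosure K) // IsExt K H M},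
          0 < w M'.1 * rho K M'.1 ∅ := by
        intro M'
        rw [rho_empty, mul_one]
        exact hw' M'.1 M'.2
      have h3 : Summable fun M : {M : IntermediateField K (AlgebraicClosure K) // IsExt K H M} =>
          w M.1 * rho K M.1 ∅ := by
        refine hws'.congr fun M' => ?_
        rw [rho_empty, mul_one]
      exact h3.tsum_pos (fun M' => (h1 M').le) ⟨M, hM⟩ (h1 ⟨M, hM⟩)
    refine ⟨hpos, ?_⟩
    have hlimN : Tendsto (fun B : ℝ => (N K d G B : ℝ) / B) atTop (nhds (const K H w ∅)) := by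
      refine (hlim ∅ fun 𝔭 h => absurd h (Set.notMem_empty 𝔭)).congr fun B => ?_
      rw [N_eq]
    refine ((hlim T hT).div hlimN hpos.ne').congr' ?_
    filter_upwards [eventually_gt_atTop (0 : ℝ)] with B hB
    have hB' : B ≠ 0 := hB.ne'
    rw [Pi.div_apply, div_div_div_cancel_right₀ hB']
  · intro T ε hε
    exact const_inf K H w hw' hws' T ε hε

end Pool.Agent.Results.MP_a3214d_nt.MixtureFormula
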