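import Pool.Agent.H419.RM.Fin
import Pool.Agent.H419.MK.Sum2

/-!
# Malle's conjecture for `C₂ ≀ H` with ramification conditions at infinitely many primes

`H` is a finite group with at least two elements which has a solvable normal subgroup `S` such that
`H / S` is trivial or has a faithful transitive action on `u` points, `4 u ^ 2 < 3 |H / S|`; for
example any nontrivial solvable group and any symmetric group. The group `H` acts on itself by
multiplication, and `G = C₂ ≀ H` acts on `H × {0, 1}`. Let `K` be a number field and `T` any set of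
prime ideals of `K`. The number of the `G`-extensions of `K` (up to isomorphism) with discriminant of
norm at most `B` which are unramified at all `𝔭 ∈ T` is `c B + o(B)`, and `c > 0` if and only if
there is a Galois extension `M` of `K` with group `H` which is unramified at all `𝔭 ∈ T` and for which
the sum of `1 / N 𝔭` over those `𝔭 ∈ T` which are totally split in `M` converges.
-/

set_option autoImplicit false

open Filter NumberField

namespace Pool.Agent.Results.MP_a3214d_nt.RamificationZeroOne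

/-- `G ≤ S_d` is, up to a bijection `f` of `{1, ..., d}` with `H × {0, 1}`, the wreath product
`C₂ ≀ H`: it consists of all permutations `π` for which there is `h ∈ H` such that `π` maps the block
`{x} × {0, 1}` to the block `{h x} × {0, 1}`, for all `x ∈ H`. -/
def IsC2Wreath (H : Type) [Group H] {d : ℕ} (G : Subgroup (Equiv.Perm (Fin d))) : Prop :=
  ∃ f : Fin d ≃ H × Bool, ∀ π : Equiv.Perm (Fin d), π ∈ G ↔ ∃ h : H, ∀ i, (f (π i)).1 = h * (f i).1

/-- `H` has a solvable normal subgroup `S` such that `H / S` is trivial or has a faithful transitive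
action on `u` points (the cosets of `U`) with `4 u ^ 2 < 3 |H / S|`. -/
def IsAdmissible (H : Type) [Group H] : Prop :=
  ∃ (S : Subgroup H) (_ : S.Normal), Group.IsSolvable S ∧
    (S = ⊤ ∨ ∃ U : Subgroup (H ⧸ S), U.normalCore = ⊥ ∧
      4 * U.index ^ 2 < 3 * Nat.card (H ⧸ S))

/-- `M / K` is a finite Galois extension with group isomorphic to `H`. -/
def IsExt (K : Type) [Field K] (H : Type) [Group H]
    (M : IntermediateField K (AlgebraicClosure K)) : Prop :=
  FiniteDimensional K M ∧ IsGalois K M ∧ Nonempty ((M ≃ₐ[K] M) ≃* H)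

/-- The fields `L` between `K` and its algebraic closure, of degree `d` over `K`, whose Galois group,
acting on the embeddings, is `G` (up to numbering), and whose relative discriminant has norm at most
`B` (that is, `|d_L| ≤ B |d_K| ^ d`). -/
def Ext (K : Type) [Field K] [NumberField K] (d : ℕ) (G : Subgroup (Equiv.Perm (Fin d)))
    (B : ℝ) : Set (IntermediateField K (AlgebraicClosure K)) :=
  {L | Module.finrank K L = d ∧
    (∃ e : (L →ₐ[K] AlgebraicClosure K) ≃ Fin d, ∀ π : Equiv.Perm (Fin d),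
      π ∈ G ↔ ∃ σ : AlgebraicClosure K ≃ₐ[K] AlgebraicClosure K,
        ∀ φ : L →ₐ[K] AlgebraicClosure K, e (σ.toAlgHom.comp φ) = π (e φ)) ∧
    ∃ h : NumberField L,
      ((|@NumberField.discr L _ h| : ℤ) : ℝ) ≤ B * ((|NumberField.discr K| : ℤ) : ℝ) ^ d}

/-- `L / K` is unramified at the prime `𝔭` of `K`: the ring `𝓞_L / 𝔭 𝓞_L` is reduced. -/
def Unramified (K : Type) [Field K] (L : Type) [Field L] [Algebra K L] (𝔭 : Ideal (𝓞 K)) : Prop :=
  IsReduced (𝓞 L ⧸ 𝔭.map (algebraMap (𝓞 K) (𝓞 L)))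

/-- The prime `𝔭` of `K` is totally split in `M`: there are `[M : K]` primes of `M` above `𝔭`. -/
def TotallySplit (K : Type) [Field K] (M : Type) [Field M] [Algebra K M] (𝔭 : Ideal (𝓞 K)) :
    Prop :=
  Set.ncard (𝔭.primesOver (𝓞 M)) = Module.finrank K M

/-- A set of (nonzero) primes of `K`. -/
def IsPrimeSet (K : Type) [Field K] (T : Set (Ideal (𝓞 K))) : Prop :=
  ∀ 𝔭 ∈ T, 𝔭.IsPrime ∧ 𝔭 ≠ ⊥

/-- The sum of `1 / N 𝔭` over all `𝔭 ∈ T` converges. -/
def IsSparse (K : Type) [Field K] [NumberField K] (T : Set (Ideal (𝓞 K))) : Prop :=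
  Summable (fun 𝔭 : T => (1 : ℝ) / Ideal.absNorm 𝔭.1)

/-- `M / K` is unramified at all `𝔭 ∈ T`, and the sum of `1 / N 𝔭` over those `𝔭 ∈ T` which are
totally split in `M` converges. -/
def IsGood (K : Type) [Field K] [NumberField K] (T : Set (Ideal (𝓞 K)))
    (M : IntermediateField K (AlgebraicClosure K)) : Prop :=
  (∀ 𝔭 ∈ T, Unramified K M 𝔭) ∧ IsSparse K {𝔭 : Ideal (𝓞 K) | 𝔭 ∈ T ∧ TotallySplit K M 𝔭}

/-- The primes of `K` which are unramified and not totally split in `M`. -/
def NonSplit (K : Type) [Field K] (M : IntermediateField K (AlgebraicClosure K)) :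
    Set (Ideal (𝓞 K)) :=
  {𝔭 | (𝔭.IsPrime ∧ 𝔭 ≠ ⊥) ∧ Unramified K M 𝔭 ∧ ¬ TotallySplit K M 𝔭}

/-- `N(K, G; B)`: the number of the fields in `Ext K d G B` up to `K`-isomorphism. -/
noncomputable def N (K : Type) [Field K] [NumberField K] (d : ℕ)
    (G : Subgroup (Equiv.Perm (Fin d))) (B : ℝ) : ℕ :=
  Nat.card (Quot fun L L' : Ext K d G B => Nonempty (L.1 ≃ₐ[K] L'.1))

/-- `N(K, G; B; T)`: the number of those which are unramified at all `𝔭 ∈ T`. -/
noncomputable def NUnr (K : Type) [Field K] [NumberField K] (d : ℕ)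
    (G : Subgroup (Equiv.Perm (Fin d))) (T : Set (Ideal (𝓞 K))) (B : ℝ) : ℕ :=
  Nat.card (Quot fun L L' : {L : IntermediateField K (AlgebraicClosure K) |
    L ∈ Ext K d G B ∧ ∀ 𝔭 ∈ T, Unramified K L 𝔭} => Nonempty (L.1 ≃ₐ[K] L'.1))

/-- `N(K, G; B; T) = c B + o(B)`, `c ≥ 0`, and `c > 0` if and only if there is a Galois extension `M`
of `K` with group `H` which is unramified at all `𝔭 ∈ T` and for which the sum of `1 / N 𝔭` over those
`𝔭 ∈ T` which are totally split in `M` converges. If the sum over all `𝔭 ∈ T` converges, this is so if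
and only if one `G`-extension of `K` is unramified at all `𝔭 ∈ T`. -/
def RamificationLaw (K : Type) [Field K] [NumberField K] (H : Type) [Group H] (d : ℕ)
    (G : Subgroup (Equiv.Perm (Fin d))) (T : Set (Ideal (𝓞 K))) (c : ℝ) : Prop :=
  0 ≤ c ∧ Tendsto (fun B : ℝ => (NUnr K d G T B : ℝ) / B) atTop (nhds c) ∧
    (0 < c ↔ ∃ M : IntermediateField K (AlgebraicClosure K), IsExt K H M ∧ IsGood K T M) ∧
    (IsSparse K T → (0 < c ↔ ∃ B : ℝ, ∃ L ∈ Ext K d G B, ∀ 𝔭 ∈ T, Unramified K L 𝔭))

/-- The proportion of the `G`-extensions of `K` which are unramified at all `𝔭 ∈ T` is `δ`. -/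
def HasProportion (K : Type) [Field K] [NumberField K] (d : ℕ)
    (G : Subgroup (Equiv.Perm (Fin d))) (T : Set (Ideal (𝓞 K))) (δ : ℝ) : Prop :=
  Tendsto (fun B : ℝ => (NUnr K d G T B : ℝ) / N K d G B) atTop (nhds δ)

theorem isAdmissible_of_solvable (H : Type) [Group H] (h : Group.IsSolvable H) :
    IsAdmissible H :=
  ⟨⊤, inferInstance, inferInstance, Or.inl rfl⟩

theorem isAdmissible_of_coreFree (H : Type) [Group H] (U : Subgroup H)
    (hU : U.normalCore = ⊥) (hc : 4 * U.index ^ 2 < 3 * Nat.card H) : IsAdmissible H := by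
  let e : H ⧸ (⊥ : Subgroup H) ≃* H := QuotientGroup.quotientBot
  refine ⟨⊥, inferInstance, inferInstance, Or.inr ⟨U.comap e.toMonoidHom, ?_, ?_⟩⟩
  · rw [eq_bot_iff]
    intro x hx
    have h1 : e x ∈ U.normalCore := by
      intro b
      have h2 := hx (e.symm b)
      have h3 : e (e.symm b * x * (e.symm b)⁻¹) ∈ U := h2
      simpa using h3
    rw [hU, Subgroup.mem_bot] at h1
    rw [Subgroup.mem_bot]
    exact (map_eq_one_iff e e.injective).1 h1
  · have h1 : (U.comap e.toMonoidHom).index = U.index :=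
      Subgroup.index_comap_of_surjective U e.surjective
    rw [h1, Nat.card_congr e.toEquiv]
    exact hc

theorem isAdmissible_perm (m : ℕ) (hm : 5 ≤ m) : IsAdmissible (Equiv.Perm (Fin m)) := by
  obtain ⟨k, rfl⟩ : ∃ k, m = k + 5 := ⟨m - 5, by omega⟩
  let U : Subgroup (Equiv.Perm (Fin (k + 5))) := MulAction.stabilizer _ (0 : Fin (k + 5))
  have hS : U.index = k + 5 := by
    change (MulAction.stabilizer (Equiv.Perm (Fin (k + 5))) (0 : Fin (k + 5))).index = k + 5
    rw [MulAction.index_stabilizer, MulAction.orbit_eq_univ]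
    simp
  refine isAdmissible_of_coreFree _ U ?_ ?_
  · rw [eq_bot_iff]
    intro π h
    have h1 : ∀ x : Equiv.Perm (Fin (k + 5)), x * π * x⁻¹ ∈ U := h
    rw [Subgroup.mem_bot]
    ext i
    have h2 := h1 (Equiv.swap 0 i)
    have h3 : (Equiv.swap 0 i * π * (Equiv.swap 0 i)⁻¹) (0 : Fin (k + 5)) = 0 := h2
    rw [Equiv.Perm.mul_apply, Equiv.Perm.mul_apply, Equiv.swap_inv, Equiv.swap_apply_left] at h3
    have h4 := congrArg (Equiv.swap 0 i) h3
    rw [Equiv.swap_apply_self, Equiv.swap_apply_left] at h4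
    rw [h4]; rfl
  · rw [hS, Nat.card_perm, Nat.card_fin]
    have hf : (k + 5).factorial = (k + 5) * ((k + 4) * ((k + 3) * (k + 2).factorial)) := by
      simp only [Nat.factorial_succ]
    have h2 : 2 ≤ (k + 2).factorial := by
      have := Nat.self_le_factorial (k + 2)
      omega
    rw [hf]
    have h3 : (k + 5) * ((k + 4) * ((k + 3) * 2)) ≤
        (k + 5) * ((k + 4) * ((k + 3) * (k + 2).factorial)) := by gcongr
    nlinarith

/-- a `G`-extension which is unramified at all `𝔭 ∈ T` contains an `H`-extension with this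
property -/
theorem sub_unr (K : Type) [Field K] [NumberField K] (H : Type) [Group H] [Finite H] {d : ℕ}
    {G : Subgroup (Equiv.Perm (Fin d))} (hG : IsC2Wreath H G) (T : Set (Ideal (𝓞 K)))
    (hT : IsPrimeSet K T) (B : ℝ) (L : IntermediateField K (AlgebraicClosure K))
    (hL : L ∈ Ext K d G B) (h : ∀ 𝔭 ∈ T, Unramified K L 𝔭) :
    ∃ M : IntermediateField K (AlgebraicClosure K), IsExt K H M ∧ ∀ 𝔭 ∈ T, Unramified K M 𝔭 := by
  have hL' : L ∈ Pool.Agent.TH444.ML.Cnt K G B := hL
  rw [Pool.Agent.TH444.ML.cnt_eq K hG] at hL'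
  obtain ⟨M, hM⟩ := (Pool.Agent.TH365.J3099.wrIff K (AlgebraicClosure K) H L).1 ⟨hL'.1, hL'.2.1⟩
  have hfd : FiniteDimensional K M := hM.1.1
  have hnf : NumberField M := Pool.Agent.TH444.ML.nf_of_fd M
  have hML : M ≤ L := hM.2.1
  have hfdL : FiniteDimensional K L := hM.2.2.1
  have hnfL : NumberField L := Pool.Agent.TH444.ML.nf_of_fd L
  have hnf2 : NumberField (IntermediateField.extendScalars hML) := hnfL
  have h1 : ∀ 𝔭 ∈ T, Pool.Agent.H419.RM.Unr K (IntermediateField.restrictScalars K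
      (IntermediateField.extendScalars hML)) 𝔭 := by
    intro 𝔭 h𝔭
    rw [IntermediateField.extendScalars_restrictScalars]
    exact h 𝔭 h𝔭
  exact ⟨M, hM.1, ((Pool.Agent.H419.RM.unr_iff M (IntermediateField.extendScalars hML) T hT).1
    h1).1⟩

theorem sparse_mono (K : Type) [Field K] [NumberField K] (T T' : Set (Ideal (𝓞 K)))
    (h : T' ⊆ T) (h3 : IsSparse K T) : IsSparse K T' := by
  have h4 : Summable (fun 𝔭 : T => (1 : ℝ) / Ideal.absNorm 𝔭.1) := h3
  have h5 : Summable ((fun 𝔭 : T => (1 : ℝ) / Ideal.absNorm 𝔭.1) ∘ Set.inclusion h) :=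
    h4.comp_injective (Set.inclusion_injective h)
  exact h5

theorem sparse_empty (K : Type) [Field K] [NumberField K] (T : Set (Ideal (𝓞 K)))
    (h : T ⊆ ∅) : IsSparse K T := by
  have h0 : T = ∅ := Set.subset_empty_iff.1 h
  subst h0
  exact summable_empty

theorem N_eq (K : Type) [Field K] [NumberField K] (d : ℕ)
    (G : Subgroup (Equiv.Perm (Fin d))) (B : ℝ) : NUnr K d G ∅ B = N K d G B := by
  have h : {L : IntermediateField K (AlgebraicClosure K) |
      L ∈ Ext K d G B ∧ ∀ 𝔭 ∈ (∅ : Set (Ideal (𝓞 K))), Unramified K L 𝔭} = Ext K d G B := by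
    ext L
    exact ⟨fun h => h.1, fun h => ⟨h, fun 𝔭 h𝔭 => absurd h𝔭 (Set.notMem_empty 𝔭)⟩⟩
  unfold NUnr N
  rw [h]

/-- **Malle's conjecture for `C₂ ≀ H` with ramification conditions at infinitely many primes.**
Solvable groups and the symmetric groups `S_m` are admissible. Let `H` be an admissible group with at
least two elements, `G = C₂ ≀ H ≤ S_d`, and `K` a number field.
1. For all sets `T` of primes of `K` the number `N(K, G; B; T)` of the `G`-extensions which are
   unramified at all `𝔭 ∈ T` is `c B + o(B)`, where `c > 0` if and only if there is a Galois extension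
   `M` of `K` with group `H` which is unramified at all `𝔭 ∈ T` and for which the sum of `1 / N 𝔭` over
   the `𝔭 ∈ T` which are totally split in `M` converges. If the sum over all `𝔭 ∈ T` converges, then
   `c > 0` if and only if one `G`-extension of `K` is unramified at all `𝔭 ∈ T`.
2. If `H` is a Galois group over `K`, then `N(K, G; B; T) / N(K, G; B)` converges, and the limit is
   positive if and only if `c > 0`.
3. For all Galois extensions `M` of `K` with group `H` a positive proportion of the `G`-extensions of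
   `K` is unramified at all primes which are unramified and not totally split in `M`. -/
theorem result :
    (∀ (H : Type) [Group H], Group.IsSolvable H → IsAdmissible H) ∧
    (∀ m : ℕ, 5 ≤ m → IsAdmissible (Equiv.Perm (Fin m))) ∧
    ∀ (K : Type) [Field K] [NumberField K] (H : Type) [Group H] [Finite H], 2 ≤ Nat.card H →
      IsAdmissible H → ∀ (d : ℕ) (G : Subgroup (Equiv.Perm (Fin d))), IsC2Wreath H G →
        (∀ T : Set (Ideal (𝓞 K)), IsPrimeSet K T → ∃ c : ℝ, RamificationLaw K H d G T c ∧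
          ((∃ M : IntermediateField K (AlgebraicClosure K), IsExt K H M) →
            ∃ δ : ℝ, HasProportion K d G T δ ∧ (0 < δ ↔ 0 < c))) ∧
        ∀ M : IntermediateField K (AlgebraicClosure K), IsExt K H M →
          ∃ δ : ℝ, 0 < δ ∧ HasProportion K d G (NonSplit K M) δ := by
  refine ⟨fun H _ h => isAdmissible_of_solvable H h, isAdmissible_perm, ?_⟩
  intro K _ _ H _ _ h2 hH d G hG
  obtain ⟨s, hs, hsum⟩ := Pool.Agent.H419.MK.sum2 K (AlgebraicClosure K) H hH
  have core := fun (T : Set (Ideal (𝓞 K))) (hT : IsPrimeSet K T) =>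
    Pool.Agent.H419.RM.coreS K H h2 s hs hsum G hG T hT
  have hgood : ∀ (T : Set (Ideal (𝓞 K))) (M : IntermediateField K (AlgebraicClosure K)),
      IsExt K H M → (((∀ 𝔭 ∈ T, Pool.Agent.H419.RM.Unr K M 𝔭) ∧ ∃ h : NumberField M,
        @Pool.Agent.H419.RM.Conv K M _ _ _ h _ T) ↔ IsGood K T M) := by
    intro T M hM
    have hfd : FiniteDimensional K M := hM.1
    have hnf : NumberField M := Pool.Agent.TH444.ML.nf_of_fd M
    constructor
    · rintro ⟨h3, _, h4⟩
      exact ⟨h3, h4⟩
    · rintro ⟨h3, h4⟩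
      exact ⟨h3, hnf, h4⟩
  have hsub := sparse_mono K
  have hcrit : ∀ T : Set (Ideal (𝓞 K)), IsPrimeSet K T → ∃ c : ℝ, RamificationLaw K H d G T c := by
    intro T hT
    obtain ⟨c, hc0, hlim, hc⟩ := core T hT
    have hc' : 0 < c ↔ ∃ M : IntermediateField K (AlgebraicClosure K), IsExt K H M ∧
        IsGood K T M := by
      rw [hc]
      constructor
      · rintro ⟨M, hM, h3⟩
        exact ⟨M, hM, (hgood T M hM).1 h3⟩
      · rintro ⟨M, hM, h3⟩
        exact ⟨M, hM, (hgood T M hM).2 h3⟩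
    refine ⟨c, hc0, hlim, hc', fun hsp => ?_⟩
    constructor
    · intro hpos
      have h3 := hlim.eventually (lt_mem_nhds hpos)
      obtain ⟨B, hB⟩ := h3.exists
      have hne : {L : IntermediateField K (AlgebraicClosure K) |
          L ∈ Ext K d G B ∧ ∀ 𝔭 ∈ T, Unramified K L 𝔭}.Nonempty := by
        by_contra hcon
        rw [Set.not_nonempty_iff_eq_empty] at hcon
        have h0 : Nat.card (Quot fun L L' : {L : IntermediateField K (AlgebraicClosure K) |
            L ∈ Pool.Agent.TH444.ML.Cnt K G B ∧ ∀ 𝔭 ∈ T, Pool.Agent.H419.RM.Unr K L 𝔭} =>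
            Nonempty (L.1 ≃ₐ[K] L'.1)) = 0 := by
          have hemp : IsEmpty {L : IntermediateField K (AlgebraicClosure K) |
              L ∈ Pool.Agent.TH444.ML.Cnt K G B ∧ ∀ 𝔭 ∈ T, Pool.Agent.H419.RM.Unr K L 𝔭} :=
            Set.isEmpty_coe_sort.2 hcon
          have : IsEmpty (Quot fun L L' : {L : IntermediateField K (AlgebraicClosure K) |
              L ∈ Pool.Agent.TH444.ML.Cnt K G B ∧ ∀ 𝔭 ∈ T, Pool.Agent.H419.RM.Unr K L 𝔭} =>
              Nonempty (L.1 ≃ₐ[K] L'.1)) :=
            ⟨fun q => Quot.inductionOn q fun L => hemp.false L⟩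
          exact Nat.card_of_isEmpty
        rw [h0, Nat.cast_zero, zero_div] at hB
        exact lt_irrefl _ hB
      obtain ⟨L, h4, h5⟩ := hne
      exact ⟨B, L, h4, h5⟩
    · rintro ⟨B, L, hL, h3⟩
      obtain ⟨M, hM, h4⟩ := sub_unr K H hG T hT B L hL h3
      exact hc'.2 ⟨M, hM, h4, hsub T _ (fun 𝔭 h => h.1) hsp⟩
  have hprop : (∃ M : IntermediateField K (AlgebraicClosure K), IsExt K H M) →
      ∀ (T : Set (Ideal (𝓞 K))) (c : ℝ), RamificationLaw K H d G T c →
        ∃ δ : ℝ, HasProportion K d G T δ ∧ (0 < δ ↔ 0 < c) := by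
    rintro ⟨M, hM⟩ T c ⟨hc0, hlim, -, -⟩
    obtain ⟨C, -, hC, hCiff, -⟩ := hcrit ∅ (fun 𝔭 h => absurd h (Set.notMem_empty 𝔭))
    have hCpos : 0 < C := by
      rw [hCiff]
      refine ⟨M, hM, fun 𝔭 h => absurd h (Set.notMem_empty 𝔭), ?_⟩
      exact sparse_empty K _ (fun 𝔭 h => h.1)
    have hlimN : Tendsto (fun B : ℝ => (N K d G B : ℝ) / B) atTop (nhds C) := by
      refine hC.congr fun B => ?_
      rw [N_eq]
    refine ⟨c / C, ?_, ?_⟩
    · refine (hlim.div hlimN hCpos.ne').congr' ?_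
      filter_upwards [eventually_gt_atTop (0 : ℝ)] with B hB
      have hB' : B ≠ 0 := hB.ne'
      rw [Pi.div_apply, div_div_div_cancel_right₀ hB']
    · exact div_pos_iff_of_pos_right hCpos
  refine ⟨fun T hT => ?_, fun M hM => ?_⟩
  · obtain ⟨c, hc⟩ := hcrit T hT
    exact ⟨c, hc, fun h => hprop h T c hc⟩
  · obtain ⟨c, hc⟩ := hcrit (NonSplit K M) (fun 𝔭 h => h.1)
    obtain ⟨δ, hδ, hiff⟩ := hprop ⟨M, hM⟩ _ c hc
    refine ⟨δ, hiff.2 ?_, hδ⟩
    rw [hc.2.2.1]
    refine ⟨M, hM, fun 𝔭 h => h.2.1, ?_⟩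
    exact sparse_empty K _ (fun 𝔭 h => absurd h.2 h.1.2.2)

end Pool.Agent.Results.MP_a3214d_nt.RamificationZeroOne
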